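import Mathlib

/-!
# A criterion for a graded ring with translations to be a polynomial algebra over a subring
-/

set_option autoImplicit false

namespace Pool.Agent.helper41.BigPoly

open MvPolynomial

universe u v w

/-- Evaluating a polynomial whose coefficients and variables land in the right degrees. -/
theorem eval₂_mem_graded {S J B : Type*} [CommSemiring S] [CommSemiring B]
    (𝓑 : ℤ → AddSubmonoid B) (hone : (1 : B) ∈ 𝓑 0)
    (hmul : ∀ {i j : ℤ} {a b : B}, a ∈ 𝓑 i → b ∈ 𝓑 j → a * b ∈ 𝓑 (i + j))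
    (φ : S →+* B) (g : J → B) (d : J → ℤ) (hg : ∀ j, g j ∈ 𝓑 (d j)) (n : ℤ)
    (P : MvPolynomial J S)
    (hP : ∀ α, φ (coeff α P) ∈ 𝓑 (n - Finsupp.weight d α)) :
    eval₂ φ g P ∈ 𝓑 n := by
  rw [eval₂_eq]
  refine AddSubmonoid.sum_mem _ fun α _ => ?_
  have hpow : ∀ (j : J) (k : ℕ), g j ^ k ∈ 𝓑 (k • d j) := by
    intro j k
    induction k with
    | zero => simpa using hone
    | succ k ih =>
      rw [pow_succ, succ_nsmul]
      exact hmul ih (hg j)
  have hprod : ∀ s : Finset J, ∏ j ∈ s, g j ^ α j ∈ 𝓑 (∑ j ∈ s, α j • d j) := by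
    classical
    intro s
    induction s using Finset.induction_on with
    | empty => simpa using hone
    | insert a s ha ih =>
      rw [Finset.prod_insert ha, Finset.sum_insert ha]
      exact hmul (hpow a _) ih
  have h := hmul (hP α) (hprod α.support)
  have hw : Finsupp.weight d α = ∑ j ∈ α.support, α j • d j := by
    rw [Finsupp.weight_apply]; rfl
  rw [← hw, sub_add_cancel] at h
  exact h

/-- The data of a graded domain (with degrees in `ℤ`, nothing in negative degree, constants in
degree zero) together with a family of ring homomorphisms `T i : R → R[[t]]` lowering degree. -/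
structure GradedTranslation (K : Type u) (R : Type v) [Field K] [CommRing R] [Algebra K R]
    (ι : Type w) where
  /-- the homogeneous parts -/
  A : ℤ → Submodule K R
  neg : ∀ n : ℤ, n < 0 → ∀ a ∈ A n, a = 0
  one_mem : (1 : R) ∈ A 0
  mul_mem : ∀ {i j : ℤ} {a b : R}, a ∈ A i → b ∈ A j → a * b ∈ A (i + j)
  zero_const : ∀ a ∈ A 0, ∃ c : K, algebraMap K R c = a
  /-- the projections -/
  pr : ℤ → R →ₗ[K] R
  pr_mem : ∀ n r, pr n r ∈ A n
  pr_same : ∀ n, ∀ a ∈ A n, pr n a = a
  pr_ne : ∀ n m, ∀ a ∈ A n, m ≠ n → pr m a = 0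
  pr_sum : ∀ r, ∃ s : Finset ℤ, r = ∑ n ∈ s, pr n r
  /-- the translations -/
  T : ι → R →+* PowerSeries R
  T_zero : ∀ i r, PowerSeries.coeff 0 (T i r) = r
  T_mem : ∀ i (k : ℕ) (n : ℤ), ∀ a ∈ A n, PowerSeries.coeff k (T i a) ∈ A (n - k)
  T_inv : ∀ a, (∀ i (k : ℕ), k ≠ 0 → PowerSeries.coeff k (T i a) = 0) → ∃ c : K, algebraMap K R c = a

namespace GradedTranslation

variable {K : Type u} {R : Type v} [Field K] [CommRing R] [Algebra K R] {ι : Type w}
  (G : GradedTranslation K R ι) (S : Subalgebra K R)

/-- Decomposable elements of degree `n` relative to `S`. -/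
def Dec (n : ℤ) : Submodule K R :=
  Submodule.span K {x | ∃ i j : ℤ, ∃ a b : R, 0 < i ∧ 0 < j ∧ i + j = n ∧ a ∈ G.A i ∧ b ∈ G.A j ∧
    a * b = x} ⊔ (Subalgebra.toSubmodule S ⊓ G.A n)

theorem Dec_le (n : ℤ) : G.Dec S n ≤ G.A n := by
  refine sup_le (Submodule.span_le.2 ?_) inf_le_right
  rintro x ⟨i, j, a, b, -, -, rfl, ha, hb, rfl⟩
  exact G.mul_mem ha hb

theorem mul_mem_Dec {i j n : ℤ} {a b : R} (hi : 0 < i) (hj : 0 < j) (hij : i + j = n)
    (ha : a ∈ G.A i) (hb : b ∈ G.A j) : a * b ∈ G.Dec S n :=
  Submodule.mem_sup_left (Submodule.subset_span ⟨i, j, a, b, hi, hj, hij, ha, hb, rfl⟩)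

theorem mem_Dec_of_mem {n : ℤ} {a : R} (ha : a ∈ G.A n) (hS : a ∈ S) : a ∈ G.Dec S n :=
  Submodule.mem_sup_right ⟨hS, ha⟩

/-- Existence of a basis of the degree `n` part modulo decomposables. -/
theorem exists_gens (n : ℤ) : ∃ (B : Type v) (f : B → R), (∀ b, f b ∈ G.A n) ∧
    (∀ b, ∃ l : R →ₗ[K] K, l (f b) = 1 ∧ (∀ b', b' ≠ b → l (f b') = 0) ∧
      ∀ x ∈ G.Dec S n, l x = 0) ∧
    (∀ a ∈ G.A n, ∃ c : B →₀ K, a - c.sum (fun b k => k • f b) ∈ G.Dec S n) := by
  classical
  let D : Submodule K (G.A n) := (G.Dec S n).submoduleOf (G.A n)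
  let Q := (G.A n) ⧸ D
  let bs := Module.Basis.ofVectorSpace K Q
  have hsurj : ∀ q : Q, ∃ x : G.A n, D.mkQ x = q := fun q => D.mkQ_surjective q
  choose lift hlift using hsurj
  refine ⟨Module.Basis.ofVectorSpaceIndex K Q, fun b => (lift (bs b) : R), fun b => (lift (bs b)).2,
    ?_, ?_⟩
  · intro b
    let P : R →ₗ[K] G.A n := (G.pr n).codRestrict (G.A n) (G.pr_mem n)
    refine ⟨(bs.coord b) ∘ₗ D.mkQ ∘ₗ P, ?_, ?_, ?_⟩
    · have : P (lift (bs b) : R) = lift (bs b) := Subtype.ext (G.pr_same n _ (lift (bs b)).2)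
      simp [this, hlift]
    · intro b' hb'
      have : P (lift (bs b') : R) = lift (bs b') := Subtype.ext (G.pr_same n _ (lift (bs b')).2)
      simp [this, hlift, hb']
    · intro x hx
      have hx' : x ∈ G.A n := G.Dec_le S n hx
      have : P x = ⟨x, hx'⟩ := Subtype.ext (G.pr_same n _ hx')
      have h0 : D.mkQ ⟨x, hx'⟩ = 0 := by
        rw [Submodule.mkQ_apply, Submodule.Quotient.mk_eq_zero]
        exact hx
      simp only [LinearMap.comp_apply, this, h0, map_zero]
  · intro a ha
    refine ⟨bs.repr (D.mkQ ⟨a, ha⟩), ?_⟩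
    have h1 : D.mkQ (⟨a, ha⟩ - (bs.repr (D.mkQ ⟨a, ha⟩)).sum fun b k => k • lift (bs b)) = 0 := by
      rw [map_sub, sub_eq_zero, Finsupp.sum, map_sum]
      conv_lhs => rw [← bs.linearCombination_repr (D.mkQ ⟨a, ha⟩)]
      rw [Finsupp.linearCombination_apply, Finsupp.sum]
      refine Finset.sum_congr rfl fun b _ => ?_
      rw [map_smul, hlift]
    rw [Submodule.mkQ_apply, Submodule.Quotient.mk_eq_zero] at h1
    have h2 : ((⟨a, ha⟩ - (bs.repr (D.mkQ ⟨a, ha⟩)).sum fun b k => k • lift (bs b) :
      G.A n) : R) ∈ G.Dec S n := h1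
    simpa [Finsupp.sum] using h2

/-! ### Polynomials over `S` graded by total degree -/

section Poly

variable {J : Type*} (e : J → R) (d : J → ℤ)

/-- Polynomials over `S` that are homogeneous of total degree `n`. -/
def H (n : ℤ) : AddSubmonoid (MvPolynomial J S) where
  carrier := {P | ∀ α, ((coeff α P : S) : R) ∈ G.A (n - Finsupp.weight d α)}
  zero_mem' := fun α => by simp
  add_mem' := fun {P Q} hP hQ α => by
    rw [coeff_add]
    exact Submodule.add_mem _ (hP α) (hQ α)

theorem mem_H {n : ℤ} {P : MvPolynomial J S} :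
    P ∈ G.H S d n ↔ ∀ α, ((coeff α P : S) : R) ∈ G.A (n - Finsupp.weight d α) := Iff.rfl

theorem C_mem_H {n : ℤ} {s : S} (hs : (s : R) ∈ G.A n) : (C s : MvPolynomial J S) ∈ G.H S d n := by
  classical
  intro α
  rw [coeff_C]
  split_ifs with h
  · subst h; simpa using hs
  · simp

theorem one_mem_H : (1 : MvPolynomial J S) ∈ G.H S d 0 := by
  have := G.C_mem_H (J := J) S d (n := 0) (s := 1) (by simpa using G.one_mem)
  simpa using this

theorem monomial_mem_H {n : ℤ} {α : J →₀ ℕ} {s : S} (hs : (s : R) ∈ G.A (n - Finsupp.weight d α)) :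
    (monomial α s : MvPolynomial J S) ∈ G.H S d n := by
  classical
  intro β
  rw [coeff_monomial]
  split_ifs with h
  · subst h; exact hs
  · simp

theorem X_mem_H (j : J) : (X j : MvPolynomial J S) ∈ G.H S d (d j) := by
  refine G.monomial_mem_H S d ?_
  simpa [Finsupp.weight_single] using G.one_mem

theorem mul_mem_H {m n : ℤ} {P Q : MvPolynomial J S} (hP : P ∈ G.H S d m) (hQ : Q ∈ G.H S d n) :
    P * Q ∈ G.H S d (m + n) := by
  classical
  intro α
  rw [coeff_mul, AddSubmonoidClass.coe_finset_sum]
  refine Submodule.sum_mem _ fun x hx => ?_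
  rw [Finset.HasAntidiagonal.mem_antidiagonal] at hx
  have h := G.mul_mem (hP x.1) (hQ x.2)
  have hw : m - Finsupp.weight d x.1 + (n - Finsupp.weight d x.2) = m + n - Finsupp.weight d α := by
    rw [← hx, map_add]; ring
  rw [hw] at h
  exact h

theorem pderiv_mem_H {n : ℤ} {P : MvPolynomial J S} (hP : P ∈ G.H S d n) (j : J) :
    pderiv j P ∈ G.H S d (n - d j) := by
  intro α
  rw [coeff_pderiv]
  have h := hP (α + Finsupp.single j 1)
  rw [map_add, Finsupp.weight_single, one_smul] at h
  have hw : n - (Finsupp.weight d α + d j) = n - d j - Finsupp.weight d α := by ring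
  rw [hw] at h
  have : ((coeff (α + Finsupp.single j 1) P * ((α j : S) + 1) : S) : R)
      = (α j + 1) • ((coeff (α + Finsupp.single j 1) P : S) : R) := by
    push_cast
    rw [nsmul_eq_mul]
    push_cast
    ring
  rw [this]
  exact Submodule.smul_of_tower_mem _ _ h

theorem eq_zero_of_mem_H_neg (hd : ∀ j, 0 < d j) {n : ℤ} (hn : n < 0) {P : MvPolynomial J S}
    (hP : P ∈ G.H S d n) : P = 0 := by
  ext α
  have hw : 0 ≤ Finsupp.weight d α := by
    rw [Finsupp.weight_apply]
    exact Finsupp.sum_nonneg fun j _ => smul_nonneg (Nat.zero_le _) (hd j).le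
  rw [coeff_zero]
  exact G.neg _ (by omega) _ (hP α)

/-- The evaluation map. -/
noncomputable def ev : MvPolynomial J S →ₐ[S] R := aeval e

theorem ev_mem (he : ∀ j, e j ∈ G.A (d j)) {n : ℤ} {P : MvPolynomial J S} (hP : P ∈ G.H S d n) :
    ev S e P ∈ G.A n := by
  have := eval₂_mem_graded (fun n => (G.A n).toAddSubmonoid) G.one_mem G.mul_mem
    (algebraMap S R) e d he n P (fun α => hP α)
  exact this

theorem ev_X (j : J) : ev S e (X j) = e j := by simp [ev]

theorem ev_C (s : S) : ev S e (C s) = (s : R) := by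
  simp [ev, Algebra.algebraMap_ofSubsemiring_apply]

/-! ### Lifting the translations -/

section Lift

variable (hST : ∀ i (k : ℕ), ∀ s ∈ S, PowerSeries.coeff k (G.T i s) ∈ S)

/-- The restriction of the translation to `S`. -/
noncomputable def TS (i : ι) : S →+* PowerSeries S where
  toFun s := PowerSeries.mk fun k => ⟨PowerSeries.coeff k (G.T i s), hST i k s s.2⟩
  map_one' := by
    ext k
    rw [PowerSeries.coeff_mk]
    change PowerSeries.coeff k (G.T i ((1 : S) : R)) = _
    rw [OneMemClass.coe_one, map_one, PowerSeries.coeff_one, PowerSeries.coeff_one]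
    split_ifs <;> simp
  map_mul' s t := by
    ext k
    rw [PowerSeries.coeff_mk, PowerSeries.coeff_mul]
    change PowerSeries.coeff k (G.T i ((s * t : S) : R)) = _
    rw [MulMemClass.coe_mul, map_mul, PowerSeries.coeff_mul, AddSubmonoidClass.coe_finset_sum]
    refine Finset.sum_congr rfl fun x _ => ?_
    rw [PowerSeries.coeff_mk, PowerSeries.coeff_mk]
    rfl
  map_zero' := by
    ext k
    rw [PowerSeries.coeff_mk]
    change PowerSeries.coeff k (G.T i ((0 : S) : R)) = _
    rw [ZeroMemClass.coe_zero, map_zero]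
    simp
  map_add' s t := by
    ext k
    rw [PowerSeries.coeff_mk, map_add, PowerSeries.coeff_mk, PowerSeries.coeff_mk]
    change PowerSeries.coeff k (G.T i ((s + t : S) : R)) = _
    rw [AddMemClass.coe_add, map_add, map_add]
    rfl

theorem coeff_TS (i : ι) (s : S) (k : ℕ) :
    ((PowerSeries.coeff k (G.TS S hST i s) : S) : R) = PowerSeries.coeff k (G.T i s) := by
  simp [TS]

/-- The lift of the translation to polynomials, given images of the variables. -/
noncomputable def TT (g : ι → J → PowerSeries (MvPolynomial J S)) (i : ι) :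
    MvPolynomial J S →+* PowerSeries (MvPolynomial J S) :=
  eval₂Hom ((PowerSeries.map (C : S →+* MvPolynomial J S)).comp (G.TS S hST i)) (g i)

variable (g : ι → J → PowerSeries (MvPolynomial J S))

theorem TT_C (i : ι) (s : S) :
    G.TT S hST g i (C s) = PowerSeries.map C (G.TS S hST i s) := by
  simp [TT]

theorem TT_X (i : ι) (j : J) : G.TT S hST g i (X j) = g i j := by
  simp [TT]

/-- Compatibility of lift and evaluation. -/
theorem ev_TT (hg : ∀ i j k, ev S e (PowerSeries.coeff k (g i j)) = PowerSeries.coeff k (G.T i (e j)))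
    (i : ι) (P : MvPolynomial J S) (k : ℕ) :
    ev S e (PowerSeries.coeff k (G.TT S hST g i P)) = PowerSeries.coeff k (G.T i (ev S e P)) := by
  have h : (PowerSeries.map (ev S e : MvPolynomial J S →+* R)).comp (G.TT S hST g i)
      = (G.T i).comp (ev S e : MvPolynomial J S →+* R) := by
    apply MvPolynomial.ringHom_ext
    · intro s
      ext k
      simp only [RingHom.comp_apply, TT_C, PowerSeries.coeff_map, RingHom.coe_coe, ev_C, coeff_TS]
    · intro j
      ext k
      simp only [RingHom.comp_apply, TT_X, PowerSeries.coeff_map, RingHom.coe_coe, ev_X, hg]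
  have h2 := congrArg (PowerSeries.coeff k) (RingHom.congr_fun h P)
  simpa [PowerSeries.coeff_map] using h2

theorem TT_zero (hg : ∀ i j, PowerSeries.coeff 0 (g i j) = X j)
    (i : ι) (P : MvPolynomial J S) : PowerSeries.coeff 0 (G.TT S hST g i P) = P := by
  have h : (PowerSeries.constantCoeff (R := MvPolynomial J S)).comp (G.TT S hST g i)
      = RingHom.id _ := by
    apply MvPolynomial.ringHom_ext
    · intro s
      have h0 : PowerSeries.coeff 0 (G.TS S hST i s) = s :=
        Subtype.ext (by rw [coeff_TS, G.T_zero])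
      rw [RingHom.comp_apply, TT_C, ← PowerSeries.coeff_zero_eq_constantCoeff_apply,
        PowerSeries.coeff_map, h0, RingHom.id_apply]
    · intro j
      rw [RingHom.comp_apply, TT_X, ← PowerSeries.coeff_zero_eq_constantCoeff_apply, hg,
        RingHom.id_apply]
  have h2 := RingHom.congr_fun h P
  rwa [RingHom.comp_apply, ← PowerSeries.coeff_zero_eq_constantCoeff_apply] at h2

/-- Power series over polynomials, graded with `t` of degree `1`. -/
def Gd (n : ℤ) : AddSubmonoid (PowerSeries (MvPolynomial J S)) where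
  carrier := {Φ | ∀ k : ℕ, PowerSeries.coeff k Φ ∈ G.H S d (n - k)}
  zero_mem' := fun k => by rw [map_zero]; exact zero_mem _
  add_mem' := fun {P Q} hP hQ k => by
    rw [map_add]
    exact add_mem (hP k) (hQ k)

theorem TT_mem (hg : ∀ i j (k : ℕ), PowerSeries.coeff k (g i j) ∈ G.H S d (d j - k))
    (i : ι) {n : ℤ} {P : MvPolynomial J S} (hP : P ∈ G.H S d n) (k : ℕ) :
    PowerSeries.coeff k (G.TT S hST g i P) ∈ G.H S d (n - k) := by
  have h : G.TT S hST g i P ∈ G.Gd S d n := by
    refine eval₂_mem_graded (G.Gd S d) ?_ ?_ _ (g i) d (fun j k => hg i j k) n P ?_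
    · intro k
      rw [PowerSeries.coeff_one]
      split_ifs with h
      · subst h; simpa using G.one_mem_H S d
      · exact zero_mem _
    · intro i j a b ha hb k
      rw [PowerSeries.coeff_mul]
      refine AddSubmonoid.sum_mem _ fun x hx => ?_
      rw [Finset.HasAntidiagonal.mem_antidiagonal] at hx
      have h := G.mul_mem_H S d (ha x.1) (hb x.2)
      have hw : i - (x.1 : ℤ) + (j - (x.2 : ℤ)) = i + j - (k : ℤ) := by
        rw [← hx]; push_cast; ring
      rwa [hw] at h
    · intro α k
      rw [RingHom.comp_apply, PowerSeries.coeff_map]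
      refine G.C_mem_H S d ?_
      rw [coeff_TS]
      exact G.T_mem i k _ _ (hP α)
  exact h k

/-- Chain rule for the lift. -/
theorem chain (i : ι) (j₁ : J) (V : Finset J) (P : MvPolynomial J S) (hP : P ∈ supported S (V : Set J))
    (k : ℕ) :
    pderiv j₁ (PowerSeries.coeff k (G.TT S hST g i P)) =
      ∑ j ∈ V, ∑ x ∈ Finset.HasAntidiagonal.antidiagonal k, PowerSeries.coeff x.1 (G.TT S hST g i (pderiv j P)) *
        pderiv j₁ (PowerSeries.coeff x.2 (g i j)) := by
  classical
  -- coefficientwise derivative of a power series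
  let Δ : PowerSeries (MvPolynomial J S) → PowerSeries (MvPolynomial J S) :=
    fun Φ => PowerSeries.mk fun k => pderiv j₁ (PowerSeries.coeff k Φ)
  have hΔ : ∀ Φ k, PowerSeries.coeff k (Δ Φ) = pderiv j₁ (PowerSeries.coeff k Φ) :=
    fun Φ k => PowerSeries.coeff_mk _ _
  have hΔadd : ∀ Φ Ψ, Δ (Φ + Ψ) = Δ Φ + Δ Ψ := by
    intro Φ Ψ; ext1 k; simp [hΔ]
  have hΔmul : ∀ Φ Ψ, Δ (Φ * Ψ) = Φ * Δ Ψ + Ψ * Δ Φ := by
    intro Φ Ψ; ext1 k
    rw [hΔ, PowerSeries.coeff_mul, map_sum, map_add, PowerSeries.coeff_mul, PowerSeries.coeff_mul,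
      ← Finset.Nat.sum_antidiagonal_swap (n := k)
        (f := fun x => PowerSeries.coeff x.1 Ψ * PowerSeries.coeff x.2 (Δ Φ)),
      ← Finset.sum_add_distrib]
    refine Finset.sum_congr rfl fun x _ => ?_
    rw [Derivation.leibniz, hΔ, hΔ]
    simp [smul_eq_mul]
  have key : Δ (G.TT S hST g i P) = ∑ j ∈ V, G.TT S hST g i (pderiv j P) * Δ (g i j) := by
    unfold supported at hP
    induction hP using Algebra.adjoin_induction with
    | mem x hx =>
      obtain ⟨j, hj, rfl⟩ := hx
      rw [TT_X, Finset.sum_eq_single j]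
      · rw [pderiv_X_self, map_one, one_mul]
      · intro j' _ hj'
        rw [pderiv_X_of_ne hj'.symm, map_zero, zero_mul]
      · intro h; exact absurd hj h
    | algebraMap s =>
      rw [Finset.sum_eq_zero]
      · ext1 k
        rw [hΔ, MvPolynomial.algebraMap_eq, TT_C, PowerSeries.coeff_map, pderiv_C, map_zero]
      · intro j _
        rw [MvPolynomial.algebraMap_eq, pderiv_C, map_zero, zero_mul]
    | add x y _ _ hx hy =>
      rw [map_add, hΔadd, hx, hy, ← Finset.sum_add_distrib]
      refine Finset.sum_congr rfl fun j _ => ?_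
      rw [map_add, map_add, add_mul]
    | mul x y _ _ hx hy =>
      rw [map_mul, hΔmul, hx, hy, Finset.mul_sum, Finset.mul_sum, ← Finset.sum_add_distrib]
      refine Finset.sum_congr rfl fun j _ => ?_
      rw [Derivation.leibniz, map_add, smul_eq_mul, smul_eq_mul, map_mul, map_mul]
      ring
  rw [← hΔ, key, map_sum]
  refine Finset.sum_congr rfl fun j _ => ?_
  rw [PowerSeries.coeff_mul]
  refine Finset.sum_congr rfl fun x _ => ?_
  rw [hΔ]

end Lift

/-! ### Injectivity in a fixed degree -/

theorem monomial_eq_X_mul {α : J →₀ ℕ} {j : J} (hj : α j ≠ 0) (s : S) :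
    (monomial α s : MvPolynomial J S) = X j * monomial (α - Finsupp.single j 1) s := by
  have h : Finsupp.single j 1 + (α - Finsupp.single j 1) = α := by
    rw [add_comm]
    exact tsub_add_cancel_of_le (by
      rw [Finsupp.single_le_iff]; omega)
  rw [X, monomial_mul, h, one_mul]

theorem weight_nonneg (hd : ∀ j, 0 < d j) (α : J →₀ ℕ) : 0 ≤ Finsupp.weight d α := by
  rw [Finsupp.weight_apply]
  exact Finsupp.sum_nonneg fun j _ => smul_nonneg (Nat.zero_le _) (hd j).le

theorem weight_sub (α : J →₀ ℕ) {j : J} (hj : α j ≠ 0) :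
    Finsupp.weight d α = d j + Finsupp.weight d (α - Finsupp.single j 1) := by
  have h : Finsupp.single j 1 + (α - Finsupp.single j 1) = α := by
    rw [add_comm]
    exact tsub_add_cancel_of_le (by
      rw [Finsupp.single_le_iff]; omega)
  conv_lhs => rw [← h]
  rw [map_add, Finsupp.weight_single, one_smul]

theorem eq_zero_of_weight_le (hd : ∀ j, 0 < d j) {α : J →₀ ℕ} (h : Finsupp.weight d α ≤ 0) :
    α = 0 := by
  by_contra hne
  obtain ⟨j, hj⟩ := Finsupp.ne_iff.1 hne
  rw [Finsupp.coe_zero, Pi.zero_apply] at hj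
  have h1 := weight_sub d α hj
  have h2 := weight_nonneg d hd (α - Finsupp.single j 1)
  have h3 := hd j
  omega

section Main

variable [IsDomain R] (hST : ∀ i (k : ℕ), ∀ s ∈ S, PowerSeries.coeff k (G.T i s) ∈ S)
  (hd : ∀ j, 0 < d j) (he : ∀ j, e j ∈ G.A (d j))
  (hsurj : ∀ n, ∀ a ∈ G.A n, ∃ P ∈ G.H S d n, ev S e P = a)

include hST hd he hsurj

theorem pderiv_eq_zero_of_ev
    (hfun : ∀ j, ∃ l : R →ₗ[K] K, l (e j) = 1 ∧ (∀ j', j' ≠ j → d j' = d j → l (e j') = 0) ∧
      ∀ x ∈ G.Dec S (d j), l x = 0)
    (n : ℤ) (IH : ∀ m < n, ∀ Q ∈ G.H S d m, ev S e Q = 0 → Q = 0)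
    (P : MvPolynomial J S) (hP : P ∈ G.H S d n) (hev : ev S e P = 0) (j : J) :
    pderiv j P = 0 := by
  classical
  -- images of the variables
  have hQ : ∀ i j (k : ℕ), ∃ Q ∈ G.H S d (d j - k), ev S e Q = PowerSeries.coeff k (G.T i (e j)) :=
    fun i j k => hsurj _ _ (G.T_mem i k _ _ (he j))
  choose Q hQmem hQev using hQ
  let g : ι → J → PowerSeries (MvPolynomial J S) :=
    fun i j => PowerSeries.mk fun k => if k = 0 then X j else Q i j k
  have hgk : ∀ i j k, PowerSeries.coeff k (g i j) = if k = 0 then X j else Q i j k :=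
    fun i j k => PowerSeries.coeff_mk _ _
  have hg0 : ∀ i j, PowerSeries.coeff 0 (g i j) = X j := fun i j => by rw [hgk, if_pos rfl]
  have hgev : ∀ i j k, ev S e (PowerSeries.coeff k (g i j)) =
      PowerSeries.coeff k (G.T i (e j)) := by
    intro i j k
    rw [hgk]
    split_ifs with h
    · subst h; rw [ev_X, G.T_zero]
    · exact hQev i j k
  have hgmem : ∀ i j (k : ℕ), PowerSeries.coeff k (g i j) ∈ G.H S d (d j - k) := by
    intro i j k
    rw [hgk]
    split_ifs with h
    · subst h; simpa using G.X_mem_H S d j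
    · exact hQmem i j k
  -- the relation is invariant
  have hTP : ∀ i (k : ℕ), k ≠ 0 → PowerSeries.coeff k (G.TT S hST g i P) = 0 := by
    intro i k hk
    refine IH (n - k) (by have := Nat.pos_of_ne_zero hk; omega) _
      (G.TT_mem S d hST g hgmem i hP k) ?_
    rw [G.ev_TT S e hST g hgev, hev, map_zero, map_zero]
  by_contra hne
  obtain ⟨j₁, hj₁, hmax⟩ := (P.vars.filter fun j => pderiv j P ≠ 0).exists_max_image d
    ⟨j, Finset.mem_filter.2 ⟨by
      by_contra h; exact hne (pderiv_eq_zero_of_notMem_vars h), hne⟩⟩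
  obtain ⟨hj₁v, hj₁ne⟩ := Finset.mem_filter.1 hj₁
  have hle : ∀ j', pderiv j' P ≠ 0 → d j' ≤ d j₁ := by
    intro j' hj'
    exact hmax j' (Finset.mem_filter.2 ⟨by
      by_contra h; exact hj' (pderiv_eq_zero_of_notMem_vars h), hj'⟩)
  have hQ' : pderiv j₁ P ∈ G.H S d (n - d j₁) := G.pderiv_mem_H S d hP j₁
  -- derivative of the higher coefficients of the images vanish
  have hneg : ∀ i j' (k : ℕ), k ≠ 0 → d j' ≤ d j₁ →
      pderiv j₁ (PowerSeries.coeff k (g i j')) = 0 := by
    intro i j' k hk hj'
    refine G.eq_zero_of_mem_H_neg S d hd (n := d j' - k - d j₁) ?_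
      (G.pderiv_mem_H S d (hgmem i j' k) j₁)
    have := Nat.pos_of_ne_zero hk
    omega
  have hTQ : ∀ i (k : ℕ), k ≠ 0 → PowerSeries.coeff k (G.TT S hST g i (pderiv j₁ P)) = 0 := by
    intro i k hk
    have h1 := G.chain S hST g i j₁ P.vars P (mem_supported.2 subset_rfl) k
    rw [hTP i k hk, map_zero, Finset.sum_eq_single j₁, Finset.sum_eq_single (k, 0)] at h1
    · rw [hg0, pderiv_X_self, mul_one] at h1
      exact h1.symm
    · rintro ⟨a, b⟩ hab hne'
      rw [Finset.HasAntidiagonal.mem_antidiagonal] at hab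
      have hb : b ≠ 0 := by
        rintro rfl
        apply hne'
        simp only [add_zero] at hab
        rw [hab]
      rw [hneg i j₁ b hb le_rfl, mul_zero]
    · intro h
      exact absurd (Finset.HasAntidiagonal.mem_antidiagonal.2 (by simp)) h
    · intro j' _ hj'
      refine Finset.sum_eq_zero fun x _ => ?_
      by_cases h : pderiv j' P = 0
      · rw [h, map_zero, map_zero, zero_mul]
      · by_cases hx : x.2 = 0
        · rw [hx, hg0, pderiv_X_of_ne hj', mul_zero]
        · rw [hneg i j' x.2 hx (hle j' h), mul_zero]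
    · intro h; exact absurd hj₁v h
  have hr : ∀ i (k : ℕ), k ≠ 0 → PowerSeries.coeff k (G.T i (ev S e (pderiv j₁ P))) = 0 := by
    intro i k hk
    rw [← G.ev_TT S e hST g hgev, hTQ i k hk, map_zero]
  obtain ⟨c, hc⟩ := G.T_inv _ hr
  rcases lt_trichotomy n (d j₁) with hn | hn | hn
  · exact hj₁ne (G.eq_zero_of_mem_H_neg S d hd (by omega) hQ')
  · -- the linear case
    obtain ⟨l, hl1, hl2, hl3⟩ := hfun j₁
    have hs₁ : ((coeff (Finsupp.single j₁ 1) P : S) : R) ∈ G.A 0 := by
      have := hP (Finsupp.single j₁ 1)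
      rwa [Finsupp.weight_single, one_smul, hn, sub_self] at this
    obtain ⟨c₁, hc₁⟩ := G.zero_const _ hs₁
    have hterm : ∀ α ∈ P.support, α ≠ Finsupp.single j₁ 1 →
        l (ev S e (monomial α (coeff α P))) = 0 := by
      intro α hα hα1
      have hsα := hP α
      have hsne : ((coeff α P : S) : R) ≠ 0 := by
        rw [MvPolynomial.mem_support_iff] at hα
        simpa using hα
      have hwle : Finsupp.weight d α ≤ n := by
        by_contra h
        exact hsne (G.neg _ (by omega) _ hsα)
      by_cases h0 : α = 0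
      · subst h0
        apply hl3
        have h1 : ev S e (monomial 0 (coeff 0 P)) = ((coeff 0 P : S) : R) := by
          rw [← ev_C (e := e)]; rfl
        rw [h1, ← hn]
        rw [map_zero, sub_zero] at hsα
        exact G.mem_Dec_of_mem S hsα (coeff 0 P).2
      · obtain ⟨j', hj'⟩ := Finsupp.ne_iff.1 h0
        rw [Finsupp.coe_zero, Pi.zero_apply] at hj'
        have hw := weight_sub d α hj'
        have hw0 := weight_nonneg d hd (α - Finsupp.single j' 1)
        rw [monomial_eq_X_mul S hj', map_mul, ev_X]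
        by_cases hlt : d j' < n
        · apply hl3
          refine G.mul_mem_Dec S (hd j') (by omega : 0 < n - d j') (by omega) (he j') ?_
          refine G.ev_mem S e d he (G.monomial_mem_H S d ?_)
          have : n - d j' - Finsupp.weight d (α - Finsupp.single j' 1) =
            n - Finsupp.weight d α := by omega
          rw [this]; exact hsα
        · have hβ : α - Finsupp.single j' 1 = 0 := eq_zero_of_weight_le d hd (by omega)
          have hdn : d j' = n := by rw [hβ, map_zero] at hw; omega
          have hα' : α = Finsupp.single j' 1 := by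
            ext x
            have := DFunLike.congr_fun hβ x
            rw [Finsupp.coe_tsub, Pi.sub_apply, Finsupp.coe_zero, Pi.zero_apply] at this
            by_cases hx : x = j'
            · subst hx; rw [Finsupp.single_eq_same] at this ⊢; omega
            · rw [Finsupp.single_eq_of_ne (by simpa using hx)] at this ⊢; omega
          have hjj : j' ≠ j₁ := by rintro rfl; exact hα1 hα'
          rw [hβ]
          have h1 : ev S e (monomial 0 (coeff α P)) = ((coeff α P : S) : R) := by
            rw [← ev_C (e := e)]; rfl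
          have hw' : n - Finsupp.weight d α = 0 := by rw [hw, hβ, map_zero]; omega
          rw [hw'] at hsα
          obtain ⟨c', hc'⟩ := G.zero_const _ hsα
          rw [h1, ← hc', mul_comm, ← Algebra.smul_def, map_smul, hl2 j' hjj (by omega), smul_zero]
    have hsum : l (ev S e P) = c₁ := by
      conv_lhs => rw [← support_sum_monomial_coeff P]
      rw [map_sum, map_sum]
      by_cases hmem : Finsupp.single j₁ 1 ∈ P.support
      · rw [Finset.sum_eq_single (Finsupp.single j₁ 1) hterm (fun h => absurd hmem h)]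
        have h1 : ev S e (monomial (Finsupp.single j₁ 1) (coeff (Finsupp.single j₁ 1) P))
            = c₁ • e j₁ := by
          rw [Algebra.smul_def, hc₁, ← ev_C (e := e), ← ev_X S e j₁, ← map_mul, C_mul_X_eq_monomial]
        rw [h1, map_smul, hl1, smul_eq_mul, mul_one]
      · rw [Finset.sum_eq_zero fun α hα => hterm α hα fun h => hmem (h ▸ hα)]
        have : coeff (Finsupp.single j₁ 1) P = 0 := by
          rwa [MvPolynomial.mem_support_iff, not_not] at hmem
        rw [this, ZeroMemClass.coe_zero] at hc₁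
        exact ((map_eq_zero_iff _ (algebraMap K R).injective).1 hc₁).symm
    rw [hev, map_zero] at hsum
    apply hj₁ne
    ext1 α
    rw [coeff_zero]
    by_cases h0 : α = 0
    · subst h0
      rw [coeff_pderiv, zero_add]
      have : (coeff (Finsupp.single j₁ 1) P) = 0 := by
        apply Subtype.ext
        rw [← hc₁, ← hsum, map_zero]; rfl
      rw [this, zero_mul]
    · have h1 := hQ' α
      have h2 := weight_nonneg d hd α
      have h3 : Finsupp.weight d α ≠ 0 := fun h => h0 (eq_zero_of_weight_le d hd h.le)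
      have h4 : ((coeff α (pderiv j₁ P) : S) : R) = 0 := G.neg _ (by omega) _ h1
      exact Subtype.ext h4
  · -- lower degree
    have hr0 : ev S e (pderiv j₁ P) = 0 := by
      have h1 := G.ev_mem S e d he hQ'
      have h2 : ev S e (pderiv j₁ P) ∈ G.A 0 := by
        rw [← hc, Algebra.algebraMap_eq_smul_one]
        exact Submodule.smul_mem _ _ G.one_mem
      rw [← G.pr_same _ _ h1]
      exact G.pr_ne 0 _ _ h2 (by omega)
    exact hj₁ne (IH _ (by have := hd j₁; omega) _ hQ' hr0)

end Main

section Roots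

variable [IsDomain R] (hST : ∀ i (k : ℕ), ∀ s ∈ S, PowerSeries.coeff k (G.T i s) ∈ S)
  (hd : ∀ j, 0 < d j)

omit [IsDomain R] in
theorem coeff_one_mul (i : ι) (a b : R) : PowerSeries.coeff 1 (G.T i (a * b)) =
    PowerSeries.coeff 1 (G.T i a) * b + a * PowerSeries.coeff 1 (G.T i b) := by
  rw [map_mul, PowerSeries.coeff_mul]
  have : Finset.HasAntidiagonal.antidiagonal 1 = {((0 : ℕ), (1 : ℕ)), (1, 0)} := rfl
  rw [this, Finset.sum_insert (by simp), Finset.sum_singleton]
  simp only [G.T_zero]
  ring

omit [IsDomain R] in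
theorem coeff_one_pow (i : ι) (a : R) (n : ℕ) : PowerSeries.coeff 1 (G.T i (a ^ n)) =
    n * (a ^ (n - 1) * PowerSeries.coeff 1 (G.T i a)) := by
  induction n with
  | zero =>
    rw [pow_zero, map_one, PowerSeries.coeff_one, if_neg one_ne_zero]; simp
  | succ n ih =>
    rw [pow_succ, coeff_one_mul, ih]
    rcases Nat.eq_zero_or_pos n with rfl | hn
    · simp
    · have : a ^ n = a ^ (n - 1) * a := by rw [← pow_succ, Nat.sub_add_cancel hn]
      rw [Nat.add_sub_cancel, this]
      push_cast
      ring

include hST hd in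
theorem eq_zero_of_pderiv (p : ℕ) [ExpChar K p]
    (hroot : ∀ n, ∀ a ∈ G.A n, a ≠ 0 → (∀ i, PowerSeries.coeff 1 (G.T i a) = 0) →
      ∃ (m : ℤ) (g : R), g ∈ G.A m ∧ p * m = n ∧ g ^ p = a)
    (hclosed : ∀ g : R, g ^ p ∈ S → g ∈ S)
    (n : ℤ) (IH : ∀ m < n, ∀ Q ∈ G.H S d m, ev S e Q = 0 → Q = 0)
    (P : MvPolynomial J S) (hP : P ∈ G.H S d n) (hev : ev S e P = 0)
    (hall : ∀ j, pderiv j P = 0) : P = 0 := by
  classical
  -- consequence of the vanishing of derivatives
  have hkey : ∀ α j, α j ≠ 0 → ((α j : ℕ) : R) * ((coeff α P : S) : R) = 0 := by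
    intro α j hj
    have h := congrArg (coeff (α - Finsupp.single j 1)) (hall j)
    have h2 : (α - Finsupp.single j 1) + Finsupp.single j 1 = α :=
      tsub_add_cancel_of_le (by rw [Finsupp.single_le_iff]; omega)
    rw [coeff_pderiv, h2, coeff_zero] at h
    have h3 := congrArg (Subtype.val : S → R) h
    have h4 : (((α - Finsupp.single j 1 : J →₀ ℕ) j : ℕ) : R) + 1 = ((α j : ℕ) : R) := by
      rw [Finsupp.coe_tsub, Pi.sub_apply, Finsupp.single_eq_same]
      rw [Nat.cast_sub (Nat.one_le_iff_ne_zero.2 hj)]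
      push_cast; ring
    have h5 : ((coeff α P : S) : R) * ((((α - Finsupp.single j 1 : J →₀ ℕ) j : ℕ) : R) + 1) = 0 := by
      simpa using h3
    rw [h4, mul_comm] at h5
    exact h5
  -- constant polynomials
  have hconst : (∀ α, α ≠ 0 → coeff α P = 0) → P = 0 := by
    intro h
    have hPC : P = C (coeff 0 P) := by
      ext1 α
      rw [coeff_C]
      split_ifs with h0
      · rw [← h0]
      · exact h α fun h' => h0 h'.symm
    rw [hPC, ev_C] at hev
    rw [hPC]
    have : coeff 0 P = 0 := Subtype.ext hev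
    rw [this, C_0]
  cases ‹ExpChar K p› with
  | zero =>
    apply hconst
    intro α hα
    obtain ⟨j, hj⟩ := Finsupp.ne_iff.1 hα
    rw [Finsupp.coe_zero, Pi.zero_apply] at hj
    have h := hkey α j hj
    haveI : CharZero R := charZero_of_injective_algebraMap (algebraMap K R).injective
    rcases mul_eq_zero.1 h with h1 | h1
    · exact absurd (Nat.cast_eq_zero.1 h1) hj
    · exact Subtype.ext h1
  | prime hp =>
    haveI : Fact p.Prime := ⟨hp⟩
    haveI : CharP R p := charP_of_injective_algebraMap (algebraMap K R).injective p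
    by_cases hn0 : n ≤ 0
    · apply hconst
      intro α hα
      have h1 := hP α
      have h2 := weight_nonneg d hd α
      have h3 : Finsupp.weight d α ≠ 0 := fun h => hα (eq_zero_of_weight_le d hd h.le)
      have h4 : ((coeff α P : S) : R) = 0 := G.neg _ (by omega) _ h1
      exact Subtype.ext h4
    push Not at hn0
    -- divisibility of exponents
    have hdvd : ∀ α ∈ P.support, ∀ j, p ∣ α j := by
      intro α hα j
      by_cases hj : α j = 0
      · rw [hj]; exact dvd_zero p
      rcases mul_eq_zero.1 (hkey α j hj) with h1 | h1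
      · exact (CharP.cast_eq_zero_iff R p _).1 h1
      · rw [MvPolynomial.mem_support_iff] at hα
        exact absurd (Subtype.ext h1) hα
    let q : (J →₀ ℕ) → (J →₀ ℕ) := fun α => α.mapRange (· / p) (Nat.zero_div p)
    have hq : ∀ α ∈ P.support, p • q α = α := by
      intro α hα
      ext j
      simp only [q, Finsupp.smul_apply, Finsupp.mapRange_apply, smul_eq_mul]
      exact Nat.mul_div_cancel' (hdvd α hα j)
    have hmon : ∀ α ∈ P.support, ev S e (monomial α (1 : S)) = ev S e (monomial (q α) (1 : S)) ^ p := by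
      intro α hα
      conv_lhs => rw [← hq α hα]
      rw [← map_pow, monomial_pow, one_pow]
    -- the derivative of the relation
    have hder : ∀ i, ∀ α ∈ P.support, PowerSeries.coeff 1 (G.T i (coeff α P : S)) = 0 := by
      intro i
      let ds : (J →₀ ℕ) → S := fun α => ⟨PowerSeries.coeff 1 (G.T i (coeff α P : S)),
        hST i 1 _ (coeff α P).2⟩
      let Pi' : MvPolynomial J S := ∑ α ∈ P.support, monomial α (ds α)
      have hPi0 : Pi' = 0 := by
        refine IH (n - 1) (by omega) _ ?_ ?_
        · refine AddSubmonoid.sum_mem _ fun α _ => G.monomial_mem_H S d ?_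
          have h1 := G.T_mem i 1 _ _ (hP α)
          have h2 : n - Finsupp.weight d α - ((1 : ℕ) : ℤ) = n - 1 - Finsupp.weight d α := by
            push_cast; ring
          rw [h2] at h1
          exact h1
        · have h1 : PowerSeries.coeff 1 (G.T i (ev S e P)) = 0 := by rw [hev, map_zero, map_zero]
          rw [← h1]
          conv_rhs => rw [← support_sum_monomial_coeff P]
          simp only [Pi', map_sum]
          refine Finset.sum_congr rfl fun α hα => ?_
          have h2 : ∀ s : S, (monomial α s : MvPolynomial J S) = C s * monomial α 1 := by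
            intro s; rw [C_mul_monomial, mul_one]
          rw [h2 (ds α), h2 (coeff α P), map_mul, map_mul, ev_C, ev_C, hmon α hα, coeff_one_mul,
            coeff_one_pow, CharP.cast_eq_zero, zero_mul, mul_zero, add_zero]
      intro α hα
      have h1 : coeff α Pi' = ds α := by
        simp only [Pi', coeff_sum, coeff_monomial]
        rw [Finset.sum_ite_eq' P.support α ds, if_pos hα]
      rw [hPi0, coeff_zero] at h1
      exact (congrArg Subtype.val h1).symm
    -- roots of the coefficients
    have hroots : ∀ α ∈ P.support, ∃ (m : ℤ) (s : S), (s : R) ∈ G.A m ∧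
        p * m = n - Finsupp.weight d α ∧ s ^ p = coeff α P := by
      intro α hα
      obtain ⟨m, g, hg, hm, hgp⟩ := hroot _ _ (hP α) (by
        rw [MvPolynomial.mem_support_iff] at hα
        simpa using hα) (fun i => hder i α hα)
      exact ⟨m, ⟨g, hclosed g (by rw [hgp]; exact (coeff α P).2)⟩, hg, hm, Subtype.ext hgp⟩
    choose! m s hsmem hm hsp using hroots
    let Q : MvPolynomial J S := ∑ α ∈ P.support, monomial (q α) (s α)
    have hQev : ev S e Q = 0 := by
      have h1 : ev S e Q ^ p = ev S e P := by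
        conv_rhs => rw [← support_sum_monomial_coeff P]
        simp only [Q, map_sum]
        rw [sum_pow_char]
        refine Finset.sum_congr rfl fun α hα => ?_
        rw [← map_pow, monomial_pow, hq α hα, hsp α hα]
      rw [hev] at h1
      exact pow_eq_zero_iff hp.ne_zero |>.1 h1
    by_contra hPne
    obtain ⟨α₀, hα₀⟩ := MvPolynomial.support_nonempty.2 hPne
    have hpw : ∀ α ∈ P.support, (p : ℤ) * (m α + Finsupp.weight d (q α)) = n := by
      intro α hα
      have h1 : Finsupp.weight d α = p * Finsupp.weight d (q α) := by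
        conv_lhs => rw [← hq α hα]
        rw [map_nsmul, nsmul_eq_mul]
      rw [mul_add, hm α hα, h1]; ring
    have hp0 : (0 : ℤ) < p := by exact_mod_cast hp.pos
    have hp2 : (2 : ℤ) ≤ p := by exact_mod_cast hp.two_le
    have hn' : ∀ α ∈ P.support, m α + Finsupp.weight d (q α) =
        m α₀ + Finsupp.weight d (q α₀) := by
      intro α hα
      have := (hpw α hα).trans (hpw α₀ hα₀).symm
      exact mul_left_cancel₀ hp0.ne' this
    have hQmem : Q ∈ G.H S d (m α₀ + Finsupp.weight d (q α₀)) := by
      refine AddSubmonoid.sum_mem _ fun α hα => G.monomial_mem_H S d ?_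
      rw [← hn' α hα, add_sub_cancel_right]
      exact hsmem α hα
    have hlt : m α₀ + Finsupp.weight d (q α₀) < n := by
      have := hpw α₀ hα₀
      nlinarith
    have hQ0 := IH _ hlt Q hQmem hQev
    have h1 : coeff (q α₀) Q = s α₀ := by
      simp only [Q, coeff_sum, coeff_monomial]
      rw [Finset.sum_eq_single α₀]
      · rw [if_pos rfl]
      · intro α hα hne
        rw [if_neg]
        intro h
        apply hne
        rw [← hq α hα, ← hq α₀ hα₀, h]
      · intro h; exact absurd hα₀ h
    rw [hQ0, coeff_zero] at h1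
    rw [MvPolynomial.mem_support_iff] at hα₀
    apply hα₀
    rw [← hsp α₀ (MvPolynomial.mem_support_iff.2 hα₀), ← h1, zero_pow hp.ne_zero]

end Roots

end Poly

/-! ### The main theorem -/

theorem pr_mul {n m : ℤ} (a b : R) (hb : b ∈ G.A m) :
    G.pr n (a * b) = G.pr (n - m) a * b := by
  classical
  obtain ⟨s, hs⟩ := G.pr_sum a
  have h1 : G.pr n (a * b) = ∑ k ∈ s, if k = n - m then G.pr k a * b else 0 := by
    conv_lhs => rw [hs]
    rw [Finset.sum_mul, map_sum]
    refine Finset.sum_congr rfl fun k _ => ?_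
    have hmem := G.mul_mem (G.pr_mem k a) hb
    split_ifs with h
    · have : k + m = n := by omega
      rw [this] at hmem
      exact G.pr_same _ _ hmem
    · exact G.pr_ne _ _ _ hmem (by omega)
  have h2 : G.pr (n - m) a = ∑ k ∈ s, if k = n - m then G.pr k a else 0 := by
    conv_lhs => rw [hs]
    rw [map_sum]
    refine Finset.sum_congr rfl fun k _ => ?_
    split_ifs with h
    · rw [← h]; exact G.pr_same _ _ (G.pr_mem k a)
    · exact G.pr_ne _ _ _ (G.pr_mem k a) (by omega)
  rw [h1, h2, Finset.sum_mul]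
  refine Finset.sum_congr rfl fun k _ => ?_
  split_ifs <;> simp

/-- **Abstract theorem.** A graded domain with translations is a polynomial algebra over any
graded subalgebra stable under translations and closed under `p`-th roots. -/
theorem exists_algEquiv [IsDomain R]
    (hST : ∀ i (k : ℕ), ∀ s ∈ S, PowerSeries.coeff k (G.T i s) ∈ S)
    (hSpr : ∀ n, ∀ s ∈ S, G.pr n s ∈ S)
    (p : ℕ) [ExpChar K p]
    (hroot : ∀ n, ∀ a ∈ G.A n, a ≠ 0 → (∀ i, PowerSeries.coeff 1 (G.T i a) = 0) →
      ∃ (m : ℤ) (g : R), g ∈ G.A m ∧ p * m = n ∧ g ^ p = a)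
    (hclosed : ∀ g : R, g ^ p ∈ S → g ∈ S) :
    ∃ J : Type v, Nonempty (MvPolynomial J S ≃ₐ[S] R) := by
  classical
  choose B f hfmem hfun hgen using G.exists_gens S
  let J : Type v := Σ n : {n : ℤ // 0 < n}, B n.1
  let e : J → R := fun j => f j.1.1 j.2
  let d : J → ℤ := fun j => j.1.1
  have hd : ∀ j, 0 < d j := fun j => j.1.2
  have he : ∀ j, e j ∈ G.A (d j) := fun j => hfmem _ _
  have hfun' : ∀ j, ∃ l : R →ₗ[K] K, l (e j) = 1 ∧ (∀ j', j' ≠ j → d j' = d j → l (e j') = 0) ∧
      ∀ x ∈ G.Dec S (d j), l x = 0 := by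
    rintro ⟨⟨n, hn⟩, b⟩
    obtain ⟨l, h1, h2, h3⟩ := hfun n b
    refine ⟨l, h1, ?_, h3⟩
    rintro ⟨⟨n', hn'⟩, b'⟩ hne hd'
    have hnn : n' = n := hd'
    subst hnn
    exact h2 b' fun h => hne (by rw [h])
  have hsurj' : ∀ N : ℕ, ∀ n : ℤ, n < N → ∀ a ∈ G.A n, ∃ P ∈ G.H S d n, ev S e P = a := by
    intro N
    induction N with
    | zero =>
      intro n hn a ha
      exact ⟨0, zero_mem _, by rw [map_zero, G.neg n (by exact_mod_cast hn) a ha]⟩
    | succ N ih =>
      intro n hn a ha
      rcases lt_trichotomy n 0 with h0 | h0 | h0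
      · exact ⟨0, zero_mem _, by rw [map_zero, G.neg n h0 a ha]⟩
      · subst h0
        obtain ⟨c, rfl⟩ := G.zero_const a ha
        refine ⟨C (algebraMap K S c), G.C_mem_H S d ?_, ?_⟩
        · exact ha
        · rw [ev_C]; rfl
      · obtain ⟨c, hc⟩ := hgen n a ha
        have hdec : ∀ z ∈ G.Dec S n, ∃ P ∈ G.H S d n, ev S e P = z := by
          intro z hz
          obtain ⟨y, hy, w, hw, rfl⟩ := Submodule.mem_sup.1 hz
          have hw' : ∃ P ∈ G.H S d n, ev S e P = w :=
            ⟨C ⟨w, hw.1⟩, G.C_mem_H S d hw.2, by rw [ev_C]⟩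
          have hy' : ∃ P ∈ G.H S d n, ev S e P = y := by
            clear hz
            induction hy using Submodule.span_induction with
            | mem x hx =>
              obtain ⟨i, j, a, b, hi, hj, hij, ha, hb, rfl⟩ := hx
              obtain ⟨P, hP, rfl⟩ := ih i (by omega) a ha
              obtain ⟨Q, hQ, rfl⟩ := ih j (by omega) b hb
              exact ⟨P * Q, hij ▸ G.mul_mem_H S d hP hQ, by rw [map_mul]⟩
            | zero => exact ⟨0, zero_mem _, map_zero _⟩
            | add x y _ _ hx hy =>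
              obtain ⟨P, hP, rfl⟩ := hx
              obtain ⟨Q, hQ, rfl⟩ := hy
              exact ⟨P + Q, add_mem hP hQ, by rw [map_add]⟩
            | smul c x _ hx =>
              obtain ⟨P, hP, rfl⟩ := hx
              refine ⟨C (algebraMap K S c) * P, ?_, ?_⟩
              · have h1 : (C (algebraMap K S c) : MvPolynomial J S) ∈ G.H S d 0 := by
                  refine G.C_mem_H S d ?_
                  have : ((algebraMap K S c : S) : R) = c • (1 : R) :=
                    (Algebra.algebraMap_eq_smul_one c : algebraMap K R c = _)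
                  rw [this]
                  exact Submodule.smul_mem _ _ G.one_mem
                have := G.mul_mem_H S d h1 hP
                rwa [zero_add] at this
              · rw [map_mul, ev_C, Algebra.smul_def]; rfl
          obtain ⟨P, hP, rfl⟩ := hw'
          obtain ⟨Q, hQ, rfl⟩ := hy'
          exact ⟨Q + P, add_mem hQ hP, by rw [map_add]⟩
        obtain ⟨P, hP, hPe⟩ := hdec _ hc
        refine ⟨P + c.sum fun b k => C (algebraMap K S k) * X (⟨⟨n, h0⟩, b⟩ : J), ?_, ?_⟩
        · refine add_mem hP (AddSubmonoid.sum_mem _ fun b _ => ?_)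
          have h1 : (C (algebraMap K S (c b)) : MvPolynomial J S) ∈ G.H S d 0 := by
            refine G.C_mem_H S d ?_
            have : ((algebraMap K S (c b) : S) : R) = (c b) • (1 : R) :=
              (Algebra.algebraMap_eq_smul_one (c b) : algebraMap K R (c b) = _)
            rw [this]
            exact Submodule.smul_mem _ _ G.one_mem
          have := G.mul_mem_H S d h1 (G.X_mem_H S d (⟨⟨n, h0⟩, b⟩ : J))
          rwa [zero_add] at this
        · have h1 : ev S e (c.sum fun b k => C (algebraMap K S k) * X (⟨⟨n, h0⟩, b⟩ : J)) =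
              c.sum fun b k => k • f n b := by
            rw [Finsupp.sum, Finsupp.sum, map_sum]
            refine Finset.sum_congr rfl fun b _ => ?_
            rw [map_mul, ev_C, ev_X, Algebra.smul_def]
            rfl
          rw [map_add, hPe, h1, sub_add_cancel]
  have hsurj : ∀ n, ∀ a ∈ G.A n, ∃ P ∈ G.H S d n, ev S e P = a := by
    intro n a ha
    exact hsurj' (n.toNat + 1) n (by push_cast; omega) a ha
  have hinj' : ∀ N : ℕ, ∀ n : ℤ, n < N → ∀ P ∈ G.H S d n, ev S e P = 0 → P = 0 := by
    intro N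
    induction N with
    | zero => exact fun n hn P hP _ => G.eq_zero_of_mem_H_neg S d hd (by exact_mod_cast hn) hP
    | succ N ih =>
      intro n hn P hP hev
      by_cases hlt : n < N
      · exact ih n hlt P hP hev
      · have IH : ∀ m < n, ∀ Q ∈ G.H S d m, ev S e Q = 0 → Q = 0 := by
          intro m hm
          exact ih m (by push_cast at hn; omega)
        exact G.eq_zero_of_pderiv S e d hST hd p hroot hclosed n IH P hP hev
          fun j => G.pderiv_eq_zero_of_ev S e d hST hd he hsurj hfun' n IH P hP hev j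
  have hinj : Function.Injective (ev S e) := by
    rw [injective_iff_map_eq_zero]
    intro P hP
    have hcomp : ∀ n, (∑ α ∈ P.support, monomial α (⟨G.pr (n - Finsupp.weight d α)
        (coeff α P : S), hSpr _ _ (coeff α P).2⟩ : S) : MvPolynomial J S) = 0 := by
      intro n
      refine hinj' (n.toNat + 1) n (by push_cast; omega) _ ?_ ?_
      · exact AddSubmonoid.sum_mem _ fun α _ => G.monomial_mem_H S d (G.pr_mem _ _)
      · have h1 : G.pr n (ev S e P) = 0 := by rw [hP, map_zero]
        rw [← h1]
        conv_rhs => rw [← support_sum_monomial_coeff P]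
        rw [map_sum, map_sum, map_sum]
        refine Finset.sum_congr rfl fun α _ => ?_
        have h2 : ∀ s : S, (monomial α s : MvPolynomial J S) = C s * monomial α 1 := by
          intro s; rw [C_mul_monomial, mul_one]
        rw [h2 (coeff α P), h2 ⟨_, _⟩, map_mul, map_mul, ev_C, ev_C]
        refine (G.pr_mul _ _ (G.ev_mem S e d he (n := Finsupp.weight d α)
          (G.monomial_mem_H S d ?_))).symm
        simpa using G.one_mem
    have hcoef : ∀ α (k : ℤ), G.pr k (coeff α P : S) = 0 := by
      intro α k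
      by_cases hα : α ∈ P.support
      · have h1 := congrArg (coeff α) (hcomp (k + Finsupp.weight d α))
        rw [coeff_zero, coeff_sum] at h1
        simp only [coeff_monomial] at h1
        rw [Finset.sum_eq_single α, if_pos rfl] at h1
        · have h2 := congrArg Subtype.val h1
          rwa [add_sub_cancel_right] at h2
        · intro β _ hβ; rw [if_neg hβ]
        · intro h; exact absurd hα h
      · rw [MvPolynomial.mem_support_iff, not_not] at hα
        rw [hα, ZeroMemClass.coe_zero, map_zero]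
    ext1 α
    rw [coeff_zero]
    apply Subtype.ext
    obtain ⟨s, hs⟩ := G.pr_sum (coeff α P : S)
    rw [hs, Finset.sum_eq_zero fun k _ => hcoef α k]
    rfl
  have hsurj'' : Function.Surjective (ev S e) := by
    intro r
    obtain ⟨s, hs⟩ := G.pr_sum r
    choose P hP hPe using fun n => hsurj n _ (G.pr_mem n r)
    refine ⟨∑ n ∈ s, P n, ?_⟩
    rw [map_sum]
    conv_rhs => rw [hs]
    exact Finset.sum_congr rfl fun n _ => hPe n
  exact ⟨J, ⟨AlgEquiv.ofBijective (ev S e) ⟨hinj, hsurj''⟩⟩⟩

end GradedTranslation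

end Pool.Agent.helper41.BigPoly
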