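import Mathlib

/-!
# Big polynomial rings: definitions

`BigRing K` is the inverse limit, in the category of graded rings, of the polynomial rings
`K[x_1, …, x_n]`, realised as the ring of formal power series of bounded degree in countably many
variables. `BoundedDenominators A K` is its subring of series with bounded denominators.
-/

set_option autoImplicit false

namespace Pool.Agent.helper41.BigPoly

universe u v w

/-- The ring `R`: formal power series in `x_0, x_1, x_2, …` over `K` of bounded degree, that is,
finite sums of (possibly infinite) formal `K`-linear combinations of monomials of a fixed degree. -/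
def BigRing (K : Type u) [Field K] : Subalgebra K (MvPowerSeries ℕ K) where
  carrier := {f | ∃ d : ℕ, ∀ m : ℕ →₀ ℕ, MvPowerSeries.coeff m f ≠ 0 → m.degree ≤ d}
  mul_mem' := by
    classical
    rintro f g ⟨a, ha⟩ ⟨b, hb⟩
    refine ⟨a + b, fun m hm => ?_⟩
    rw [MvPowerSeries.coeff_mul] at hm
    obtain ⟨x, hx, hne⟩ := Finset.exists_ne_zero_of_sum_ne_zero hm
    rw [Finset.HasAntidiagonal.mem_antidiagonal] at hx
    rw [← hx, map_add]
    exact add_le_add (ha _ (left_ne_zero_of_mul hne)) (hb _ (right_ne_zero_of_mul hne))
  add_mem' := by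
    rintro f g ⟨a, ha⟩ ⟨b, hb⟩
    refine ⟨max a b, fun m hm => ?_⟩
    rw [map_add] at hm
    by_cases h : MvPowerSeries.coeff m f = 0
    · rw [h, zero_add] at hm
      exact le_max_of_le_right (hb m hm)
    · exact le_max_of_le_left (ha m h)
  algebraMap_mem' := by
    classical
    intro c
    refine ⟨0, fun m hm => ?_⟩
    rw [MvPowerSeries.algebraMap_apply, MvPowerSeries.coeff_C] at hm
    by_cases h : m = 0
    · rw [h, map_zero]
    · rw [if_neg h] at hm; exact absurd rfl hm

/-- The subring `R^♭` of `R`: the series `f` for which there is a nonzero `a ∈ A` such that all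
coefficients of `a f` lie in `A`. Here `K` is the fraction field of `A`. -/
def BoundedDenominators (A : Type v) (K : Type u) [CommRing A] [IsDomain A] [Field K] [Algebra A K]
    [IsFractionRing A K] : Subalgebra K (BigRing K) where
  carrier := {f | ∃ a : A, a ≠ 0 ∧ ∀ m : ℕ →₀ ℕ, ∃ b : A,
    algebraMap A K b = algebraMap A K a * MvPowerSeries.coeff m (f : MvPowerSeries ℕ K)}
  mul_mem' := by
    classical
    rintro f g ⟨a, ha, hf⟩ ⟨b, hb, hg⟩
    choose F hF using hf
    choose G hG using hg
    refine ⟨a * b, mul_ne_zero ha hb, fun m => ⟨∑ x ∈ Finset.HasAntidiagonal.antidiagonal m,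
      F x.1 * G x.2, ?_⟩⟩
    rw [MulMemClass.coe_mul, MvPowerSeries.coeff_mul, map_sum, Finset.mul_sum]
    refine Finset.sum_congr rfl fun x _ => ?_
    rw [map_mul, map_mul, hF, hG]; ring
  add_mem' := by
    rintro f g ⟨a, ha, hf⟩ ⟨b, hb, hg⟩
    choose F hF using hf
    choose G hG using hg
    refine ⟨a * b, mul_ne_zero ha hb, fun m => ⟨b * F m + a * G m, ?_⟩⟩
    rw [AddMemClass.coe_add, map_add, map_add, map_mul, map_mul, map_mul, hF, hG]; ring
  algebraMap_mem' := by
    classical
    intro c
    obtain ⟨x, y, hy, rfl⟩ := IsFractionRing.div_surjective (A := A) c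
    have hy0 : y ≠ 0 := nonZeroDivisors.ne_zero hy
    have hy1 : algebraMap A K y ≠ 0 := by
      rwa [Ne, FaithfulSMul.algebraMap_eq_zero_iff]
    refine ⟨y, hy0, fun m => ⟨if m = 0 then x else 0, ?_⟩⟩
    have : ((algebraMap K (BigRing K) (algebraMap A K x / algebraMap A K y) : BigRing K) :
        MvPowerSeries ℕ K) = MvPowerSeries.C (algebraMap A K x / algebraMap A K y) := rfl
    rw [this, MvPowerSeries.coeff_C]
    split_ifs
    · field_simp
    · simp

/-- `R` is a polynomial algebra over `R^♭` in some set `J` of variables (with `J` in the universe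
`Type w`): there is an isomorphism of `R^♭`-algebras from the polynomial ring over `R^♭` in the
variables `J` to `R`. -/
def IsPolynomialOverFlat (A : Type v) (K : Type u) [CommRing A] [IsDomain A] [Field K] [Algebra A K]
    [IsFractionRing A K] : Prop :=
  ∃ J : Type w, Nonempty (MvPolynomial J (BoundedDenominators A K)
    ≃ₐ[BoundedDenominators A K] BigRing K)

end Pool.Agent.helper41.BigPoly
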