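import Mathlib
import Pool.Agent.helper41.BigPoly.Defs
import Pool.Agent.helper41.BigPoly.Abstract

/-!
# Big polynomial rings: Hasse derivatives, grading, and the criterion
-/

set_option autoImplicit false

namespace Pool.Agent.helper41.BigPoly

open MvPowerSeries Finset.HasAntidiagonal

universe u v

section Hasse

variable {K : Type u} [Field K]

/-- The `k`-th Hasse derivative with respect to the `i`-th variable. -/
noncomputable def hasse (i k : ℕ) (f : MvPowerSeries ℕ K) : MvPowerSeries ℕ K :=
  fun m => (Nat.choose (m i + k) k : K) * coeff (m + Finsupp.single i k) f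

theorem coeff_hasse (i k : ℕ) (f : MvPowerSeries ℕ K) (m : ℕ →₀ ℕ) :
    coeff m (hasse i k f) = (Nat.choose (m i + k) k : K) * coeff (m + Finsupp.single i k) f := rfl

theorem hasse_zero_right (i k : ℕ) : hasse i k (0 : MvPowerSeries ℕ K) = 0 := by
  ext m; rw [coeff_hasse]; simp

theorem hasse_add (i k : ℕ) (f g : MvPowerSeries ℕ K) :
    hasse i k (f + g) = hasse i k f + hasse i k g := by
  ext m; simp only [coeff_hasse, map_add]; ring

theorem hasse_zero_left (i : ℕ) (f : MvPowerSeries ℕ K) : hasse i 0 f = f := by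
  ext m; simp [coeff_hasse]

theorem hasse_one (i k : ℕ) : hasse i k (1 : MvPowerSeries ℕ K) = if k = 0 then 1 else 0 := by
  classical
  split_ifs with h
  · subst h; rw [hasse_zero_left]
  · ext m
    rw [coeff_hasse, coeff_one, if_neg, mul_zero, map_zero]
    intro h0
    have := DFunLike.congr_fun h0 i
    rw [Finsupp.add_apply, Finsupp.single_eq_same, Finsupp.coe_zero, Pi.zero_apply] at this
    omega

theorem hasse_mul (i k : ℕ) (f g : MvPowerSeries ℕ K) :
    hasse i k (f * g) = ∑ x ∈ antidiagonal k, hasse i x.1 f * hasse i x.2 g := by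
  classical
  ext m
  rw [coeff_hasse, coeff_mul, map_sum, Finset.mul_sum]
  have h1 : ∀ u ∈ antidiagonal (m + Finsupp.single i k),
      (Nat.choose (m i + k) k : K) * (coeff u.1 f * coeff u.2 g) =
      ∑ x ∈ antidiagonal k, ((Nat.choose (u.1 i) x.1 : K) * (Nat.choose (u.2 i) x.2 : K)) *
        (coeff u.1 f * coeff u.2 g) := by
    intro u hu
    rw [mem_antidiagonal] at hu
    have h2 : m i + k = u.1 i + u.2 i := by
      have := DFunLike.congr_fun hu i
      rw [Finsupp.add_apply, Finsupp.add_apply, Finsupp.single_eq_same] at this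
      omega
    rw [h2, Nat.add_choose_eq, ← Finset.sum_mul]
    push_cast
    rfl
  rw [Finset.sum_congr rfl h1, Finset.sum_comm]
  refine Finset.sum_congr rfl fun x hx => ?_
  rw [mem_antidiagonal] at hx
  rw [coeff_mul]
  -- reindex along `y ↦ (y.1 + x.1 eᵢ, y.2 + x.2 eᵢ)`
  let φ : (ℕ →₀ ℕ) × (ℕ →₀ ℕ) → (ℕ →₀ ℕ) × (ℕ →₀ ℕ) :=
    fun y => (y.1 + Finsupp.single i x.1, y.2 + Finsupp.single i x.2)
  have hφinj : Set.InjOn φ (antidiagonal m : Finset _) := by
    intro y _ y' _ h
    have h1 := congrArg Prod.fst h
    have h2 := congrArg Prod.snd h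
    exact Prod.ext (add_right_cancel h1) (add_right_cancel h2)
  have hsub : (antidiagonal m).image φ ⊆ antidiagonal (m + Finsupp.single i k) := by
    intro u hu
    obtain ⟨y, hy, rfl⟩ := Finset.mem_image.1 hu
    rw [mem_antidiagonal] at hy ⊢
    rw [← hy, ← hx, Finsupp.single_add]
    simp only [φ]
    abel
  rw [← Finset.sum_subset hsub, Finset.sum_image hφinj]
  · refine Finset.sum_congr rfl fun y _ => ?_
    rw [coeff_hasse, coeff_hasse]
    simp only [φ, Finsupp.add_apply, Finsupp.single_eq_same]
    ring
  · intro u hu hu'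
    rw [mem_antidiagonal] at hu
    by_cases h1 : u.1 i < x.1
    · rw [Nat.choose_eq_zero_of_lt h1]; simp
    by_cases h2 : u.2 i < x.2
    · rw [Nat.choose_eq_zero_of_lt h2]; simp
    exfalso
    apply hu'
    rw [Finset.mem_image]
    have e1 : u.1 - Finsupp.single i x.1 + Finsupp.single i x.1 = u.1 :=
      tsub_add_cancel_of_le (by rw [Finsupp.single_le_iff]; omega)
    have e2 : u.2 - Finsupp.single i x.2 + Finsupp.single i x.2 = u.2 :=
      tsub_add_cancel_of_le (by rw [Finsupp.single_le_iff]; omega)
    refine ⟨(u.1 - Finsupp.single i x.1, u.2 - Finsupp.single i x.2), ?_, ?_⟩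
    · rw [mem_antidiagonal]
      have h3 : (u.1 - Finsupp.single i x.1 + Finsupp.single i x.1) +
          (u.2 - Finsupp.single i x.2 + Finsupp.single i x.2) = m + Finsupp.single i k := by
        rw [e1, e2, hu]
      have h4 : (u.1 - Finsupp.single i x.1 + (u.2 - Finsupp.single i x.2)) +
          Finsupp.single i k = m + Finsupp.single i k := by
        rw [← h3, ← hx, Finsupp.single_add, add_add_add_comm]
      exact add_right_cancel h4
    · exact Prod.ext e1 e2

theorem hasse_mem (i k : ℕ) {f : MvPowerSeries ℕ K} (hf : f ∈ BigRing K) :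
    hasse i k f ∈ BigRing K := by
  obtain ⟨d, hd⟩ := hf
  refine ⟨d, fun m hm => ?_⟩
  rw [coeff_hasse] at hm
  have := hd _ (right_ne_zero_of_mul hm)
  rw [map_add] at this
  omega

/-- The translation `x_i ↦ x_i + t`. -/
noncomputable def trans (i : ℕ) : BigRing K →+* PowerSeries (BigRing K) where
  toFun f := PowerSeries.mk fun k => ⟨hasse i k f, hasse_mem i k f.2⟩
  map_one' := by
    ext1 k
    rw [PowerSeries.coeff_mk, PowerSeries.coeff_one]
    apply Subtype.ext
    change hasse i k (1 : MvPowerSeries ℕ K) = _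
    rw [hasse_one]
    split_ifs <;> rfl
  map_mul' f g := by
    ext1 k
    rw [PowerSeries.coeff_mk, PowerSeries.coeff_mul]
    apply Subtype.ext
    change hasse i k ((f : MvPowerSeries ℕ K) * (g : MvPowerSeries ℕ K)) = _
    rw [hasse_mul, AddSubmonoidClass.coe_finset_sum]
    refine Finset.sum_congr rfl fun x _ => ?_
    rw [PowerSeries.coeff_mk, PowerSeries.coeff_mk]
    rfl
  map_zero' := by
    ext1 k
    rw [PowerSeries.coeff_mk, map_zero]
    apply Subtype.ext
    change hasse i k (0 : MvPowerSeries ℕ K) = _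
    rw [hasse_zero_right]; rfl
  map_add' f g := by
    ext1 k
    rw [PowerSeries.coeff_mk, map_add, PowerSeries.coeff_mk, PowerSeries.coeff_mk]
    apply Subtype.ext
    change hasse i k ((f : MvPowerSeries ℕ K) + (g : MvPowerSeries ℕ K)) = _
    rw [hasse_add]; rfl

theorem coeff_trans (i k : ℕ) (f : BigRing K) :
    ((PowerSeries.coeff k (trans i f) : BigRing K) : MvPowerSeries ℕ K) = hasse i k f := by
  simp [trans]

/-- The homogeneous parts. -/
def homog (K : Type u) [Field K] (n : ℤ) : Submodule K (BigRing K) where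
  carrier := {f | ∀ m : ℕ →₀ ℕ, coeff m (f : MvPowerSeries ℕ K) ≠ 0 → (m.degree : ℤ) = n}
  zero_mem' := fun m hm => by simp at hm
  add_mem' := by
    intro f g hf hg m hm
    rw [AddMemClass.coe_add, map_add] at hm
    by_cases h : coeff m (f : MvPowerSeries ℕ K) = 0
    · rw [h, zero_add] at hm; exact hg m hm
    · exact hf m h
  smul_mem' := by
    intro c f hf m hm
    refine hf m ?_
    intro h
    apply hm
    have : ((c • f : BigRing K) : MvPowerSeries ℕ K) = c • (f : MvPowerSeries ℕ K) := rfl
    rw [this, map_smul, h, smul_zero]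

/-- The projection to the homogeneous part of degree `n`. -/
noncomputable def proj (n : ℤ) : BigRing K →ₗ[K] BigRing K where
  toFun f := ⟨fun m => if (m.degree : ℤ) = n then coeff m (f : MvPowerSeries ℕ K) else 0, by
    obtain ⟨d, hd⟩ := f.2
    refine ⟨d, fun m hm => ?_⟩
    change (if (m.degree : ℤ) = n then coeff m (f : MvPowerSeries ℕ K) else 0) ≠ 0 at hm
    split_ifs at hm with h
    · exact hd m hm
    · exact absurd rfl hm⟩
  map_add' f g := by
    apply Subtype.ext
    ext m
    change (if (m.degree : ℤ) = n then coeff m (f : MvPowerSeries ℕ K) +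
      coeff m (g : MvPowerSeries ℕ K) else 0) =
      (if (m.degree : ℤ) = n then coeff m (f : MvPowerSeries ℕ K) else 0) +
      (if (m.degree : ℤ) = n then coeff m (g : MvPowerSeries ℕ K) else 0)
    split_ifs <;> simp
  map_smul' c f := by
    apply Subtype.ext
    ext m
    change (if (m.degree : ℤ) = n then c * coeff m (f : MvPowerSeries ℕ K) else 0) =
      c * (if (m.degree : ℤ) = n then coeff m (f : MvPowerSeries ℕ K) else 0)
    split_ifs <;> simp

theorem coeff_proj (n : ℤ) (f : BigRing K) (m : ℕ →₀ ℕ) :
    coeff m ((proj n f : BigRing K) : MvPowerSeries ℕ K) =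
      if (m.degree : ℤ) = n then coeff m (f : MvPowerSeries ℕ K) else 0 := rfl

/-- The graded ring with translations. -/
noncomputable def GT (K : Type u) [Field K] : GradedTranslation K (BigRing K) ℕ where
  A := homog K
  neg n hn a ha := by
    apply Subtype.ext
    ext m
    by_contra h
    have := ha m (by simpa using h)
    omega
  one_mem := by
    classical
    intro m hm
    have : ((1 : BigRing K) : MvPowerSeries ℕ K) = 1 := rfl
    rw [this, coeff_one] at hm
    split_ifs at hm with h
    · subst h; simp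
    · exact absurd rfl hm
  mul_mem := by
    classical
    intro i j a b ha hb m hm
    rw [MulMemClass.coe_mul, coeff_mul] at hm
    obtain ⟨x, hx, hne⟩ := Finset.exists_ne_zero_of_sum_ne_zero hm
    rw [mem_antidiagonal] at hx
    have h1 := ha _ (left_ne_zero_of_mul hne)
    have h2 := hb _ (right_ne_zero_of_mul hne)
    rw [← hx, map_add]
    push_cast
    omega
  zero_const a ha := by
    classical
    refine ⟨coeff 0 (a : MvPowerSeries ℕ K), ?_⟩
    apply Subtype.ext
    ext m
    change coeff m (C (coeff 0 (a : MvPowerSeries ℕ K)) : MvPowerSeries ℕ K) = _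
    rw [coeff_C]
    split_ifs with h
    · rw [h]
    · by_contra h'
      have := ha m (fun h0 => h' h0.symm)
      have h1 : m.degree = 0 := by exact_mod_cast this
      exact h ((Finsupp.degree_eq_zero_iff m).1 h1)
  pr := proj
  pr_mem n r m hm := by
    rw [coeff_proj] at hm
    by_contra h
    rw [if_neg h] at hm
    exact hm rfl
  pr_same n a ha := by
    apply Subtype.ext
    ext m
    rw [coeff_proj]
    split_ifs with h
    · rfl
    · by_contra h'
      exact h (ha m (fun h0 => h' h0.symm))
  pr_ne n m a ha hmn := by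
    apply Subtype.ext
    ext k
    rw [coeff_proj]
    split_ifs with h
    · by_contra h'
      exact hmn (h ▸ (ha k (by simpa using h')))
    · simp
  pr_sum r := by
    classical
    obtain ⟨d, hd⟩ := r.2
    refine ⟨(Finset.range (d + 1)).image (fun n : ℕ => (n : ℤ)), ?_⟩
    apply Subtype.ext
    ext m
    rw [AddSubmonoidClass.coe_finset_sum, map_sum]
    simp only [coeff_proj]
    rw [Finset.sum_ite_eq]
    split_ifs with h
    · rfl
    · by_contra h'
      apply h
      rw [Finset.mem_image]
      exact ⟨m.degree, Finset.mem_range.2 (Nat.lt_succ_of_le (hd m h')), rfl⟩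
  T := trans
  T_zero i r := by
    apply Subtype.ext
    rw [coeff_trans, hasse_zero_left]
  T_mem i k n a ha m hm := by
    rw [coeff_trans, coeff_hasse] at hm
    have := ha _ (right_ne_zero_of_mul hm)
    rw [map_add, Finsupp.degree_single] at this
    push_cast at this
    omega
  T_inv a ha := by
    classical
    refine ⟨coeff 0 (a : MvPowerSeries ℕ K), ?_⟩
    apply Subtype.ext
    ext m
    change coeff m (C (coeff 0 (a : MvPowerSeries ℕ K)) : MvPowerSeries ℕ K) = _
    rw [coeff_C]
    split_ifs with h
    · rw [h]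
    · obtain ⟨i, hi⟩ := Finsupp.ne_iff.1 h
      rw [Finsupp.coe_zero, Pi.zero_apply] at hi
      have h1 := congrArg (fun f : BigRing K => coeff (m - Finsupp.single i (m i))
        (f : MvPowerSeries ℕ K)) (ha i (m i) hi)
      simp only [coeff_trans, coeff_hasse] at h1
      have e1 : m - Finsupp.single i (m i) + Finsupp.single i (m i) = m :=
        tsub_add_cancel_of_le (by rw [Finsupp.single_le_iff])
      have e2 : (m - Finsupp.single i (m i) : ℕ →₀ ℕ) i = 0 := by
        rw [Finsupp.coe_tsub, Pi.sub_apply, Finsupp.single_eq_same, Nat.sub_self]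
      rw [e1, e2, zero_add, Nat.choose_self, Nat.cast_one, one_mul] at h1
      rw [h1]
      simp

end Hasse

/-- Homogeneous `p`-th roots exist when all first order derivatives vanish. -/
theorem exists_root {K : Type u} [Field K] [PerfectField K] (p : ℕ) [ExpChar K p] (n : ℤ)
    (a : BigRing K) (ha : a ∈ homog K n) (ha0 : a ≠ 0)
    (hder : ∀ i, PowerSeries.coeff 1 (trans i a) = 0) :
    ∃ (m : ℤ) (g : BigRing K), g ∈ homog K m ∧ p * m = n ∧ g ^ p = a := by
  classical
  rcases ‹ExpChar K p› with _ | hp
  · exact ⟨n, a, ha, by simp, by simp⟩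
  · haveI : ExpChar K p := ExpChar.prime hp
    haveI : Fact p.Prime := ⟨hp⟩
    -- only exponents divisible by `p` occur
    have hdvd : ∀ m : ℕ →₀ ℕ, coeff m (a : MvPowerSeries ℕ K) ≠ 0 → ∀ i, p ∣ m i := by
      intro m hm i
      by_cases hi : m i = 0
      · rw [hi]; exact dvd_zero p
      have h1 := congrArg (fun f : BigRing K => coeff (m - Finsupp.single i 1)
        (f : MvPowerSeries ℕ K)) (hder i)
      simp only [coeff_trans, coeff_hasse] at h1
      have e1 : m - Finsupp.single i 1 + Finsupp.single i 1 = m :=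
        tsub_add_cancel_of_le (by rw [Finsupp.single_le_iff]; omega)
      have e2 : (m - Finsupp.single i 1 : ℕ →₀ ℕ) i + 1 = m i := by
        rw [Finsupp.coe_tsub, Pi.sub_apply, Finsupp.single_eq_same]; omega
      rw [e1, e2, Nat.choose_one_right] at h1
      have h2 : (m i : K) * coeff m (a : MvPowerSeries ℕ K) = 0 := by simpa using h1
      rcases mul_eq_zero.1 h2 with h3 | h3
      · exact (CharP.cast_eq_zero_iff K p _).1 h3
      · exact absurd h3 hm
    have hq : ∀ m : ℕ →₀ ℕ, (∀ i, p ∣ m i) → ∃ m' : ℕ →₀ ℕ, p • m' = m := by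
      intro m hm
      exact ⟨m.mapRange (· / p) (Nat.zero_div p), by
        ext j
        simp only [Finsupp.smul_apply, Finsupp.mapRange_apply, smul_eq_mul]
        exact Nat.mul_div_cancel' (hm j)⟩
    obtain ⟨m₀, hm₀⟩ : ∃ m, coeff m (a : MvPowerSeries ℕ K) ≠ 0 := by
      by_contra h
      push Not at h
      apply ha0
      apply Subtype.ext
      ext m
      rw [h m]; simp
    obtain ⟨m₁, rfl⟩ := hq m₀ (hdvd m₀ hm₀)
    have hn : (p : ℤ) * m₁.degree = n := by
      have := ha _ hm₀
      rw [map_nsmul] at this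
      push_cast at this
      simpa using this
    have hp0 : (0 : ℤ) < p := by exact_mod_cast hp.pos
    let g₀ : MvPowerSeries ℕ K := fun m => (frobeniusEquiv K p).symm (coeff (p • m) (a : MvPowerSeries ℕ K))
    have hg₀ : ∀ m, coeff m g₀ = (frobeniusEquiv K p).symm (coeff (p • m) (a : MvPowerSeries ℕ K)) :=
      fun m => rfl
    have hg₀deg : ∀ m, coeff m g₀ ≠ 0 → (m.degree : ℤ) = m₁.degree := by
      intro m hm
      rw [hg₀] at hm
      have h1 : coeff (p • m) (a : MvPowerSeries ℕ K) ≠ 0 := by
        intro h; rw [h, map_zero] at hm; exact hm rfl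
      have h2 := ha _ h1
      rw [map_nsmul] at h2
      push_cast at h2
      rw [← hn, smul_eq_mul] at h2
      exact mul_left_cancel₀ hp0.ne' h2
    refine ⟨m₁.degree, ⟨g₀, m₁.degree, fun m hm => ?_⟩, hg₀deg, hn, ?_⟩
    · have := hg₀deg m hm
      exact le_of_eq (by exact_mod_cast this)
    · apply Subtype.ext
      change g₀ ^ p = a
      rw [← map_frobenius_expand p hp.ne_zero]
      ext m
      rw [coeff_map]
      by_cases hm : ∀ i, p ∣ m i
      · obtain ⟨m', rfl⟩ := hq m hm
        rw [coeff_expand_smul, hg₀, ← frobeniusEquiv_apply, RingEquiv.apply_symm_apply]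
      · push Not at hm
        obtain ⟨i, hi⟩ := hm
        rw [coeff_expand_of_not_dvd p hp.ne_zero _ hi, map_zero]
        by_contra h
        exact hi (hdvd m (fun h0 => h h0.symm) i)

end Pool.Agent.helper41.BigPoly
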