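import Mathlib
import Pool.Agent.helper41.BigPoly.Concrete

/-!
# Big polynomial rings: when is `R` a polynomial algebra over `R^♭`?
-/

set_option autoImplicit false

namespace Pool.Agent.helper41.BigPoly

open MvPowerSeries

universe u v w

theorem isDomain_bigRing (K : Type u) [Field K] : IsDomain (BigRing K) := by
  haveI : IsDomain (MvPowerSeries ℕ K) := NoZeroDivisors.to_isDomain _
  infer_instance

section

variable {A : Type v} {K : Type u} [CommRing A] [IsDomain A] [Field K] [Algebra A K]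
    [IsFractionRing A K]

/-- A subring over which a domain is a polynomial algebra is closed under roots. -/
theorem mem_of_pow_mem_of_equiv {K R : Type*} [Field K] [CommRing R] [IsDomain R] [Algebra K R]
    (S : Subalgebra K R) {J : Type*} (φ : MvPolynomial J S ≃ₐ[S] R) {g : R} {p : ℕ} (hp : p ≠ 0)
    (hg : g ^ p ∈ S) : g ∈ S := by
  have h1 : (φ.symm g) ^ p = MvPolynomial.C ⟨g ^ p, hg⟩ := by
    rw [← map_pow]
    apply φ.injective
    rw [AlgEquiv.apply_symm_apply, ← MvPolynomial.algebraMap_eq, AlgEquiv.commutes]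
    rfl
  have h2 : ∀ n : ℕ, ((φ.symm g) ^ n).totalDegree = n * (φ.symm g).totalDegree := by
    by_cases h0 : φ.symm g = 0
    · intro n
      rcases Nat.eq_zero_or_pos n with rfl | hn
      · simp
      · rw [h0, zero_pow hn.ne']; simp
    · intro n
      induction n with
      | zero => simp
      | succ n ih =>
        rw [pow_succ, MvPolynomial.totalDegree_mul_of_isDomain (pow_ne_zero _ h0) h0, ih]
        ring
  have h3 : (φ.symm g).totalDegree = 0 := by
    have h4 := h2 p
    rw [h1, MvPolynomial.totalDegree_C] at h4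
    rcases Nat.mul_eq_zero.1 h4.symm with h | h
    · exact absurd h hp
    · exact h
  rw [MvPolynomial.totalDegree_eq_zero_iff_eq_C] at h3
  have h5 : g = ((MvPolynomial.coeff 0 (φ.symm g) : S) : R) := by
    conv_lhs => rw [← φ.apply_symm_apply g, h3, ← MvPolynomial.algebraMap_eq, AlgEquiv.commutes]
    rfl
  rw [h5]
  exact (MvPolynomial.coeff 0 (φ.symm g)).2

/-- `R` is a polynomial algebra over `R^♭` as soon as `R^♭` is closed under `p`-th roots. -/
theorem exists_equiv_of_closed [PerfectField K] (p : ℕ) [ExpChar K p]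
    (hclosed : ∀ g : BigRing K, g ^ p ∈ BoundedDenominators A K → g ∈ BoundedDenominators A K) :
    ∃ J : Type u, Nonempty (MvPolynomial J (BoundedDenominators A K)
      ≃ₐ[BoundedDenominators A K] BigRing K) := by
  haveI := isDomain_bigRing K
  refine (GT K).exists_algEquiv (BoundedDenominators A K) ?_ ?_ p
    (fun n a ha ha0 h => exists_root p n a ha ha0 h) hclosed
  · rintro i k s ⟨a, ha, hs⟩
    refine ⟨a, ha, fun m => ?_⟩
    obtain ⟨b, hb⟩ := hs (m + Finsupp.single i k)
    refine ⟨(Nat.choose (m i + k) k : A) * b, ?_⟩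
    have : ((PowerSeries.coeff k ((GT K).T i s) : BigRing K) : MvPowerSeries ℕ K) = hasse i k s :=
      coeff_trans i k s
    rw [this, coeff_hasse, map_mul, map_natCast, hb]
    ring
  · rintro n s ⟨a, ha, hs⟩
    refine ⟨a, ha, fun m => ?_⟩
    obtain ⟨b, hb⟩ := hs m
    have : coeff m (((GT K).pr n s : BigRing K) : MvPowerSeries ℕ K) =
      if (m.degree : ℤ) = n then coeff m (s : MvPowerSeries ℕ K) else 0 := coeff_proj n s m
    rw [this]
    split_ifs with h
    · exact ⟨b, hb⟩
    · exact ⟨0, by simp⟩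

/-- The linear form `∑ c_i x_i`. -/
noncomputable def linForm (c : ℕ → K) : BigRing K :=
  ⟨fun m => if m.degree = 1 then m.sum (fun i _ => c i) else 0, 1, fun m hm => by
    change (if m.degree = 1 then m.sum (fun i _ => c i) else 0) ≠ 0 at hm
    split_ifs at hm with h
    · exact h.le
    · exact absurd rfl hm⟩

theorem coeff_linForm (c : ℕ → K) (m : ℕ →₀ ℕ) :
    coeff m (linForm c : MvPowerSeries ℕ K) = if m.degree = 1 then m.sum (fun i _ => c i) else 0 :=
  rfl

theorem degree_eq_one {m : ℕ →₀ ℕ} (h : m.degree = 1) : ∃ i, m = Finsupp.single i 1 := by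
  obtain ⟨i, hi⟩ : ∃ i, m i ≠ 0 := by
    by_contra h'
    push Not at h'
    have : m = 0 := by ext i; exact h' i
    rw [this, map_zero] at h
    omega
  refine ⟨i, ?_⟩
  have e1 : m - Finsupp.single i 1 + Finsupp.single i 1 = m :=
    tsub_add_cancel_of_le (by rw [Finsupp.single_le_iff]; omega)
  have h2 : (m - Finsupp.single i 1).degree = 0 := by
    have := congrArg Finsupp.degree e1
    rw [map_add, Finsupp.degree_single, h] at this
    omega
  rw [Finsupp.degree_eq_zero_iff] at h2
  rw [← e1, h2, zero_add]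

theorem coeff_linForm_single (c : ℕ → K) (i : ℕ) :
    coeff (Finsupp.single i 1) (linForm c : MvPowerSeries ℕ K) = c i := by
  rw [coeff_linForm, Finsupp.degree_single, if_pos rfl, Finsupp.sum,
    Finsupp.support_single_ne_zero _ one_ne_zero, Finset.sum_singleton]

theorem coeff_pow_char (p : ℕ) [hp : Fact p.Prime] [CharP K p] (f : MvPowerSeries ℕ K)
    (m : ℕ →₀ ℕ) : coeff (p • m) (f ^ p) = (coeff m f) ^ p := by
  rw [← map_frobenius_expand p hp.out.ne_zero, coeff_map, coeff_expand_smul, frobenius_def]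

theorem coeff_pow_char_of_not_dvd (p : ℕ) [hp : Fact p.Prime] [CharP K p] (f : MvPowerSeries ℕ K)
    {m : ℕ →₀ ℕ} {i : ℕ} (h : ¬ p ∣ m i) : coeff m (f ^ p) = 0 := by
  rw [← map_frobenius_expand p hp.out.ne_zero, coeff_map, coeff_expand_of_not_dvd p _ _ h, map_zero]

theorem exists_smul_eq (p : ℕ) (m : ℕ →₀ ℕ) (hm : ∀ i, p ∣ m i) : ∃ m' : ℕ →₀ ℕ, p • m' = m :=
  ⟨m.mapRange (· / p) (Nat.zero_div p), by
    ext j
    simp only [Finsupp.smul_apply, Finsupp.mapRange_apply, smul_eq_mul]
    exact Nat.mul_div_cancel' (hm j)⟩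

/-- If `c_i ^ p ∈ A` for all `i` then the `p`-th power of `∑ c_i x_i` has bounded denominators. -/
theorem linForm_pow_mem (p : ℕ) [hp : Fact p.Prime] [CharP K p] (c : ℕ → K)
    (hc : ∀ i, ∃ b : A, algebraMap A K b = c i ^ p) :
    (linForm c) ^ p ∈ BoundedDenominators A K := by
  refine ⟨1, one_ne_zero, fun m => ?_⟩
  rw [map_one]
  have e : (((linForm c) ^ p : BigRing K) : MvPowerSeries ℕ K) =
    (linForm c : MvPowerSeries ℕ K) ^ p := rfl
  rw [e]
  by_cases hm : ∀ i, p ∣ m i
  · obtain ⟨m', rfl⟩ := exists_smul_eq p m hm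
    rw [coeff_pow_char]
    by_cases h1 : m'.degree = 1
    · obtain ⟨i, rfl⟩ := degree_eq_one h1
      rw [coeff_linForm_single]
      obtain ⟨b, hb⟩ := hc i
      exact ⟨b, by rw [hb, one_mul]⟩
    · rw [coeff_linForm, if_neg h1, zero_pow hp.out.ne_zero]
      exact ⟨0, by simp⟩
  · push Not at hm
    obtain ⟨i, hi⟩ := hm
    rw [coeff_pow_char_of_not_dvd p _ hi]
    exact ⟨0, by simp⟩

/-- If `∑ c_i x_i` has bounded denominators, then the `c_i` have a common denominator. -/
theorem exists_of_linForm_mem (c : ℕ → K) (h : linForm c ∈ BoundedDenominators A K) :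
    ∃ a : A, a ≠ 0 ∧ ∀ i, ∃ b : A, algebraMap A K b = algebraMap A K a * c i := by
  obtain ⟨a, ha, h⟩ := h
  refine ⟨a, ha, fun i => ?_⟩
  obtain ⟨b, hb⟩ := h (Finsupp.single i 1)
  exact ⟨b, by rw [hb, coeff_linForm_single]⟩

/-- The sequence condition implies closure under `p`-th roots. -/
theorem closed_of_seq (p : ℕ) [hp : Fact p.Prime] [CharP K p]
    (hseq : ∀ c : ℕ → K, (∀ i, ∃ b : A, algebraMap A K b = c i ^ p) →
      ∃ a : A, a ≠ 0 ∧ ∀ i, ∃ b : A, algebraMap A K b = algebraMap A K a * c i)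
    (g : BigRing K) (hg : g ^ p ∈ BoundedDenominators A K) : g ∈ BoundedDenominators A K := by
  obtain ⟨a, ha, h⟩ := hg
  obtain ⟨num⟩ : Nonempty (Denumerable (ℕ →₀ ℕ)) := nonempty_denumerable _
  let e : (ℕ →₀ ℕ) ≃ ℕ := Denumerable.eqv _
  obtain ⟨a', ha', h'⟩ := hseq (fun i => algebraMap A K a * coeff (e.symm i) (g : MvPowerSeries ℕ K))
    (by
      intro i
      obtain ⟨b, hb⟩ := h (p • e.symm i)
      have e1 : ((g ^ p : BigRing K) : MvPowerSeries ℕ K) = (g : MvPowerSeries ℕ K) ^ p := rfl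
      rw [e1, coeff_pow_char] at hb
      refine ⟨a ^ (p - 1) * b, ?_⟩
      rw [map_mul, map_pow, hb, mul_pow, ← mul_assoc, ← pow_succ,
        Nat.sub_add_cancel hp.out.one_le])
  refine ⟨a' * a, mul_ne_zero ha' ha, fun m => ?_⟩
  obtain ⟨b, hb⟩ := h' (e m)
  refine ⟨b, ?_⟩
  rw [hb, Equiv.symm_apply_apply, map_mul, mul_assoc]

end

end Pool.Agent.helper41.BigPoly
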